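import Pool.Agent.Helper39.FX.Defs

/-! # Properties of resultants (not a result) -/

set_option autoImplicit false

open Polynomial

namespace Pool.Agent.Helper25.FX

open Pool.Agent.Helper39.FX

lemma res_deg {R : Type} [CommRing R] (f g : R[X]) (hf : f.Monic) (n : ℕ)
    (hn : g.natDegree ≤ n) : resultant f g f.natDegree n = resultant f g := by
  obtain ⟨k, rfl⟩ := Nat.exists_eq_add_of_le hn
  rw [resultant_add_right_deg _ _ _ _ _ le_rfl, hf.coeff_natDegree, one_pow, one_mul]

lemma res_map {R R' : Type} [CommRing R] [CommRing R'] [Nontrivial R'] (φ : R →+* R')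
    (f g : R[X]) (hf : f.Monic) : resultant (f.map φ) (g.map φ) = φ (resultant f g) := by
  rw [← res_deg _ _ (hf.map φ) g.natDegree natDegree_map_le, hf.natDegree_map, resultant_map_map]

lemma res_prod {R : Type} [CommRing R] [IsDomain R] (n : ℕ) (s : Fin n → R) (g : R[X]) :
    resultant (∏ j, (X - C (s j))) g = ∏ j, g.eval (s j) := by
  rw [resultant_prod_left _ _ _ _ _ le_rfl]
  · refine Finset.prod_congr rfl fun j _ => ?_
    rw [natDegree_X_sub_C, resultant_X_sub_C_left _ _ _ le_rfl]
  · rw [Finset.prod_eq_one fun j _ => leadingCoeff_X_sub_C (s j)]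
    exact one_ne_zero

lemma res_mul {R : Type} [CommRing R] (f g h : R[X]) (hf : f.Monic) :
    resultant f (g * h) = resultant f g * resultant f h := by
  rw [← res_deg f (g * h) hf _ natDegree_mul_le, resultant_mul_right _ _ _ _ le_rfl]

lemma res_congr {R : Type} [CommRing R] (f g h : R[X]) (hf : f.Monic) (hd : f ∣ g - h) :
    resultant f g = resultant f h := by
  obtain ⟨p, hp⟩ := hd
  have hg : g = h + f * p := by rw [← hp]; ring
  set n := max (p.natDegree + f.natDegree) (max g.natDegree h.natDegree) with hn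
  rw [← res_deg f g hf n ((le_max_left _ _).trans (le_max_right _ _)),
    ← res_deg f h hf n ((le_max_right _ _).trans (le_max_right _ _)), hg,
    resultant_add_mul_right _ _ _ _ _ (le_max_left _ _) le_rfl]

lemma res_ne {k : Type} [Field k] (f g : k[X][X]) (hf : f.Monic) (hi : Irreducible f)
    (hd : ¬ f ∣ g) : resultant f g ≠ 0 := by
  have hinj : Function.Injective (algebraMap k[X] (FractionRing k[X])) :=
    IsFractionRing.injective k[X] (FractionRing k[X])
  have h1 : Irreducible (f.map (algebraMap k[X] (FractionRing k[X]))) :=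
    (hf.irreducible_iff_irreducible_map_fraction_map).1 hi
  have h2 : ¬ f.map (algebraMap k[X] (FractionRing k[X])) ∣
      g.map (algebraMap k[X] (FractionRing k[X])) := by
    rw [map_dvd_map _ hinj hf]
    exact hd
  have h3 := (h1.coprime_iff_not_dvd).2 h2
  have h4 := resultant_ne_zero _ _ h3
  rw [res_map _ _ _ hf] at h4
  intro h0
  rw [h0, map_zero] at h4
  exact h4 rfl

theorem nmr : S_NMR :=
  ⟨fun _ _ _ _ _ φ f g hf => res_map φ f g hf, fun _ _ _ n s g => res_prod n s g,
    fun _ _ _ f g h hf => res_mul f g h hf, fun _ _ _ f g h hf hd => res_congr f g h hf hd,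
    fun _ _ f g hf hi hd => res_ne f g hf hi hd⟩

end Pool.Agent.Helper25.FX
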