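import Pool.Agent.Helper25.FX.Wr

/-! # Choice of a multiple with a nonzero Wronskian (not a result) -/

set_option autoImplicit false

open Polynomial

namespace Pool.Agent.Helper25.FX

open Pool.Agent.Helper39.FX

lemma exists_split {L : Type} [Field L] [IsAlgClosed L] (F : L[X]) (hF : F.Monic) (n : ℕ)
    (hn : F.natDegree = n) : ∃ s : Fin n → L, F = ∏ j, (X - C (s j)) := by
  have h := (IsAlgClosed.splits F).eq_prod_roots_of_monic hF
  have hc : F.roots.toList.length = n := by
    rw [Multiset.length_toList, ← hn]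
    exact (IsAlgClosed.splits F).natDegree_eq_card_roots.symm
  subst hc
  refine ⟨F.roots.toList.get, ?_⟩
  conv_lhs => rw [h, ← Multiset.coe_toList F.roots]
  rw [Multiset.map_coe, Multiset.prod_coe, ← List.prod_ofFn]
  congr 1
  have h2 : (fun j : Fin F.roots.toList.length => X - C (F.roots.toList.get j)) =
      (fun a => X - C a) ∘ F.roots.toList.get := rfl
  rw [h2, ← List.map_ofFn, List.ofFn_get]

/-- the norm of `V Z - U` is a polynomial of degree at most `n`, with the norm of `V` as
coefficient of degree `n` -/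
lemma chi_deg {k : Type} [Field k] (f U V : k[X][X]) (hf : f.Monic) :
    (chi f U V).natDegree ≤ f.natDegree ∧ (chi f U V).coeff f.natDegree = resultant f V := by
  set L := AlgebraicClosure (FractionRing k[X]) with hL
  set φ : k[X] →+* L := (algebraMap (FractionRing k[X]) L).comp (algebraMap k[X] (FractionRing k[X]))
    with hφ
  have hinj : Function.Injective φ :=
    (algebraMap (FractionRing k[X]) L).injective.comp (IsFractionRing.injective k[X] _)
  obtain ⟨s, hs⟩ := exists_split (f.map φ) (hf.map φ) f.natDegree (hf.natDegree_map φ)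
  have hchi : (chi f U V).map φ = ∏ j, (C ((V.map φ).eval (s j)) * X - C ((U.map φ).eval (s j))) := by
    have h1 : (chi f U V).map φ = mapRingHom φ (chi f U V) := rfl
    have hc : (mapRingHom φ).comp (C : k[X] →+* k[X][X]) = (C : L →+* L[X]).comp φ := by
      ext1
      · ext1 x
        simp
      · simp
    have hfL : (f.map C).map (mapRingHom φ) = ∏ j, (X - C (C (s j))) := by
      rw [Polynomial.map_map, hc, ← Polynomial.map_map, hs, Polynomial.map_prod]
      refine Finset.prod_congr rfl fun j _ => ?_
      rw [Polynomial.map_sub, map_X, map_C]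
    rw [h1]
    unfold chi
    rw [← res_map _ _ _ (hf.map C), hfL, res_prod]
    refine Finset.prod_congr rfl fun j _ => ?_
    have he : ∀ W : k[X][X], (W.map ((C : L →+* L[X]).comp φ)).eval (C (s j)) =
        C ((W.map φ).eval (s j)) := by
      intro W
      rw [← Polynomial.map_map, eval_map, eval₂_hom]
    rw [Polynomial.map_sub, Polynomial.map_mul, map_C, Polynomial.map_map, Polynomial.map_map, hc,
      eval_sub, eval_mul, eval_C, he, he]
    simp only [coe_mapRingHom, map_X]
    ring
  have hd1 : ∀ j ∈ (Finset.univ : Finset (Fin f.natDegree)),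
      (C ((V.map φ).eval (s j)) * X - C ((U.map φ).eval (s j))).natDegree ≤ 1 := by
    intro j _
    refine (natDegree_sub_le _ _).trans (max_le ?_ ?_)
    · exact (natDegree_C_mul_le _ _).trans natDegree_X_le
    · rw [natDegree_C]; exact Nat.zero_le _
  refine ⟨?_, ?_⟩
  · rw [← natDegree_map_eq_of_injective hinj, hchi]
    refine (natDegree_prod_le _ _).trans ((Finset.sum_le_sum hd1).trans ?_)
    simp
  · apply hinj
    rw [← coeff_map, hchi]
    have h1 := coeff_prod_of_natDegree_le (s := Finset.univ)
      (fun j : Fin f.natDegree => C ((V.map φ).eval (s j)) * X - C ((U.map φ).eval (s j))) 1 hd1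
    rw [Finset.card_univ, Fintype.card_fin, mul_one] at h1
    rw [h1, ← res_map _ _ _ hf, hs, res_prod]
    refine Finset.prod_congr rfl fun j _ => ?_
    rw [coeff_sub, coeff_C_mul, coeff_X_one, mul_one, coeff_C_succ, sub_zero]

lemma aux_lin (R : Type) [CommRing R] (x t v k u y : R) (h : k * y = x - t) :
    x * v - (t * v + k * u) = k * (y * v - u) := by
  linear_combination (-v) * h

/-- the norm of `V (Z - T) - l U` -/
lemma chi_lin {k : Type} [Field k] (f U V : k[X][X]) (hf : f.Monic) (l : k) (hl : l ≠ 0) :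
    chi f (C X * V + C (C l) * U) V = ∑ i ∈ Finset.range (f.natDegree + 1),
      C ((chi f U V).coeff i * C (l ^ (f.natDegree - i))) * (X - C X) ^ i := by
  set n := f.natDegree with hn
  set Y : k[X][X] := C (C l⁻¹) * (X - C X) with hY
  have hYl : C (C l) * Y = X - C X := by
    rw [hY, ← mul_assoc, ← map_mul, ← map_mul, mul_inv_cancel₀ hl, map_one, map_one, one_mul]
  clear_value Y
  have h1 : C X * V.map (C : k[X] →+* k[X][X]) - (C X * V + C (C l) * U).map C =
      C (C (C l)) * (C Y * V.map C - U.map C) := by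
    have h0 : (C (C (C l)) : k[X][X][X]) * C Y = C X - C (C X) := by
      rw [← map_mul, hYl, map_sub]
    rw [Polynomial.map_add, Polynomial.map_mul, Polynomial.map_mul, map_C, map_C]
    exact aux_lin (k[X][X][X]) _ _ _ _ _ _ h0
  have h2 : resultant (f.map (C : k[X] →+* k[X][X])) (C (C (C l))) = C (C l) ^ n := by
    rw [resultant_C_right, natDegree_C, pow_zero, one_mul, hf.natDegree_map]
  have h3 : resultant (f.map (C : k[X] →+* k[X][X])) (C Y * V.map C - U.map C) =
      (chi f U V).comp Y := by
    have h := res_map (compRingHom Y) (f.map (C : k[X] →+* k[X][X])) (C X * V.map C - U.map C)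
      (hf.map C)
    have hc : (compRingHom Y).comp (C : k[X] →+* k[X][X]) = C := by
      refine RingHom.ext fun x => ?_
      rw [RingHom.comp_apply, coe_compRingHom_apply, C_comp]
    rw [Polynomial.map_sub, Polynomial.map_mul, map_C, Polynomial.map_map, Polynomial.map_map,
      Polynomial.map_map, hc, coe_compRingHom_apply, coe_compRingHom_apply, X_comp] at h
    exact h
  have h4 : chi f (C X * V + C (C l) * U) V = C (C l) ^ n * (chi f U V).comp Y := by
    rw [← h2, ← h3, ← res_mul _ _ _ (hf.map C), ← h1]
    rfl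
  have h5 : (chi f U V).comp Y = ∑ i ∈ Finset.range (n + 1), C ((chi f U V).coeff i) * Y ^ i :=
    eval₂_eq_sum_range' C (Nat.lt_succ_of_le (chi_deg f U V hf).1) Y
  rw [h4, h5, Finset.mul_sum]
  refine Finset.sum_congr rfl fun i hi => ?_
  rw [Finset.mem_range, Nat.lt_succ_iff] at hi
  rw [← hYl, mul_pow, map_mul, map_pow C l, map_pow C (C l), ← Nat.sub_add_cancel hi, pow_add,
    Nat.add_sub_cancel]
  ring

theorem wrl : S_WRL := by
  classical
  intro n hn
  refine ⟨n * (n + 1) + 1, ?_⟩
  intro p _ hp f U V hf hfn hV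
  have hp' : n < p := by nlinarith
  have hcn : (chi f U V).coeff n = resultant f V := by
    rw [← hfn]
    exact (chi_deg f U V hf).2
  set c : ℕ → (ZMod p)[X] := fun i => (chi f U V).coeff i with hc
  set E : Matrix (Fin (n + 1)) (Fin (n + 1)) (ZMod p)[X][X] := Matrix.of fun i j =>
    ∑ r ∈ Finset.range (n + 1), C (derivative^[(i : ℕ)] (c r * ((X - C X) ^ r :
      (ZMod p)[X][X]).coeff (j : ℕ))) * X ^ (n - r) with hE
  set Fl : ZMod p → (ZMod p)[X][X] := fun l =>
    ∑ i ∈ Finset.range (n + 1), C (c i * C (l ^ (n - i))) * (X - C X) ^ i with hFl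
  have hW : ∀ l : ZMod p, E.det.eval (C l) = wr n (Fl l) := by
    intro l
    have h1 : E.det.eval (C l) = evalRingHom (C l) E.det := rfl
    rw [h1, RingHom.map_det]
    unfold wr
    congr 1
    ext1 i j
    rw [RingHom.mapMatrix_apply, Matrix.map_apply, hE, Matrix.of_apply, Matrix.of_apply,
      coe_evalRingHom, eval_finsetSum, hFl, finsetSum_coeff, iterate_derivative_sum]
    refine Finset.sum_congr rfl fun r _ => ?_
    rw [eval_mul, eval_C, eval_pow, eval_X, coeff_C_mul,
      show c r * C (l ^ (n - r)) * ((X - C X) ^ r : (ZMod p)[X][X]).coeff (j : ℕ) =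
        C (l ^ (n - r)) * (c r * ((X - C X) ^ r : (ZMod p)[X][X]).coeff (j : ℕ)) by ring,
      iterate_derivative_C_mul, map_pow]
    ring
  have hWdeg : E.det.natDegree ≤ n * (n + 1) := by
    rw [Matrix.det_apply]
    refine natDegree_sum_le_of_forall_le _ _ fun σ _ => ?_
    refine (natDegree_smul_le _ _).trans ?_
    refine (natDegree_prod_le _ _).trans ?_
    refine (Finset.sum_le_card_nsmul _ _ n fun i _ => ?_).trans ?_
    · rw [hE, Matrix.of_apply]
      refine natDegree_sum_le_of_forall_le _ _ fun r _ => ?_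
      exact (natDegree_C_mul_X_pow_le _ _).trans (Nat.sub_le _ _)
    · rw [Finset.card_univ, Fintype.card_fin, smul_eq_mul, mul_comm]
  have hW0 : E.det ≠ 0 := by
    intro h0
    have h1 := hW 0
    rw [h0, eval_zero] at h1
    have h2 : Fl 0 = C (c n) * (X - C X) ^ n := by
      rw [hFl]
      simp only
      rw [Finset.sum_range_succ, Finset.sum_eq_zero, zero_add, Nat.sub_self, pow_zero, map_one,
        mul_one]
      intro i hi
      rw [Finset.mem_range] at hi
      rw [zero_pow (by omega), map_zero, mul_zero, map_zero, zero_mul]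
    rw [h2, wr_C_mul] at h1
    refine mul_ne_zero (pow_ne_zero _ ?_) (wr_pow_ne p n hp') h1.symm
    rw [hc]
    simp only
    rw [hcn]
    exact hV
  by_contra hcon
  push Not at hcon
  have hcast : ∀ l : ℕ, ((l : ℕ) : (ZMod p)[X]) = C ((l : ℕ) : ZMod p) := fun l => (map_natCast C l).symm
  refine hW0 (eq_zero_of_natDegree_lt_card_of_eval_eq_zero' E.det
    ((Finset.Icc 1 (n * (n + 1) + 1)).image fun l : ℕ => (C (l : ZMod p) : (ZMod p)[X])) ?_ ?_)
  · intro x hx
    rw [Finset.mem_image] at hx
    obtain ⟨l, hl, rfl⟩ := hx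
    rw [hW]
    have h1 := hcon l hl
    rw [Finset.mem_Icc] at hl
    have hl0 : (l : ZMod p) ≠ 0 := by
      rw [Ne, ZMod.natCast_eq_zero_iff]
      intro hd
      have := Nat.le_of_dvd (by omega) hd
      omega
    have h2 := chi_lin f U V hf (l : ZMod p) hl0
    rw [hfn] at h2
    have h3 : (C (C (l : ZMod p)) : (ZMod p)[X][X]) = (l : (ZMod p)[X][X]) := by
      rw [map_natCast, map_natCast]
    rw [h3] at h2
    rw [h2] at h1
    exact h1
  · rw [Finset.card_image_of_injOn, Nat.card_Icc]
    · omega
    · intro a ha b hb hab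
      rw [Finset.mem_coe, Finset.mem_Icc] at ha hb
      have h1 : (a : ZMod p) = (b : ZMod p) := C_injective hab
      rw [ZMod.natCast_eq_natCast_iff] at h1
      exact Nat.ModEq.eq_of_lt_of_lt h1 (by omega) (by omega)

end Pool.Agent.Helper25.FX
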