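import Pool.Agent.Helper25.FX.NMR

/-! # Wronskians of polynomials in two variables (not a result) -/

set_option autoImplicit false

open Polynomial

namespace Pool.Agent.Helper25.FX

open Pool.Agent.Helper39.FX

section rules

variable {R : Type} [CommRing R]

/-- a common factor of the coefficients -/
lemma wr_C_mul (n : ℕ) (g : R[X]) (F : R[X][X]) : wr n (C g * F) = g ^ (n + 1) * wr n F := by
  set L : Matrix (Fin (n + 1)) (Fin (n + 1)) R[X] := Matrix.of fun i j =>
    if (j : ℕ) ≤ i then ((i : ℕ).choose j : R[X]) * derivative^[(i : ℕ) - j] g else 0 with hL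
  have h1 : (Matrix.of fun i j : Fin (n + 1) => derivative^[(i : ℕ)] ((C g * F).coeff (j : ℕ))) =
      L * Matrix.of fun i j : Fin (n + 1) => derivative^[(i : ℕ)] (F.coeff (j : ℕ)) := by
    ext1 i j
    rw [Matrix.mul_apply]
    simp only [Matrix.of_apply, hL, coeff_C_mul]
    rw [iterate_derivative_mul]
    rw [Fin.sum_univ_eq_sum_range (fun k : ℕ =>
      (if k ≤ i then ((i : ℕ).choose k : R[X]) * derivative^[(i : ℕ) - k] g else 0) *
        derivative^[k] (F.coeff (j : ℕ))) (n + 1)]
    rw [← Finset.sum_subset (Finset.range_subset_range.2 (Nat.succ_le_of_lt i.2))]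
    · refine Finset.sum_congr rfl fun k hk => ?_
      rw [Finset.mem_range, Nat.lt_succ_iff] at hk
      rw [if_pos hk, nsmul_eq_mul, mul_assoc]
    · intro k _ hk
      rw [Finset.mem_range, Nat.lt_succ_iff] at hk
      rw [if_neg hk, zero_mul]
  have h2 : L.det = g ^ (n + 1) := by
    rw [Matrix.det_of_isLowerTriangular]
    · simp [hL]
    · intro i j hij
      have : ¬ (j : ℕ) ≤ i := by
        have : (i : ℕ) < j := hij
        omega
      rw [hL, Matrix.of_apply, if_neg this]
  unfold wr
  rw [h1, Matrix.det_mul, h2]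

/-- the Wronskian of `(Z - T) ^ n` -/
lemma wr_pow (n : ℕ) : ∃ c : ℤ, (c = 1 ∨ c = -1) ∧
    wr n ((X - C X) ^ n : R[X][X]) =
      (c : R[X]) * ∏ i ∈ Finset.range (n + 1), ((-1) ^ i * (i.factorial : R[X]) * (n.choose i : R[X])) := by
  set M : Matrix (Fin (n + 1)) (Fin (n + 1)) R[X] :=
    Matrix.of fun i j => derivative^[(i : ℕ)] ((-X) ^ (j : ℕ) * (n.choose j : R[X])) with hM
  have h1 : (Matrix.of fun i j : Fin (n + 1) =>
      derivative^[(i : ℕ)] (((X - C X) ^ n : R[X][X]).coeff (j : ℕ))) =
      M.submatrix id Fin.revPerm := by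
    ext1 i j
    have hj := j.2
    rw [Matrix.submatrix_apply, hM, Matrix.of_apply, Matrix.of_apply, id, sub_eq_add_neg,
      ← C_neg, coeff_X_add_C_pow, Fin.revPerm_apply, Fin.val_rev,
      show n + 1 - ((j : ℕ) + 1) = n - j by omega, Nat.choose_symm (by omega)]
  have h2 : M.det = ∏ i ∈ Finset.range (n + 1),
      ((-1) ^ i * (i.factorial : R[X]) * (n.choose i : R[X])) := by
    rw [Matrix.det_of_isUpperTriangular]
    · rw [← Fin.prod_univ_eq_prod_range (fun i : ℕ =>
        ((-1) ^ i * (i.factorial : R[X]) * (n.choose i : R[X]))) (n + 1)]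
      refine Finset.prod_congr rfl fun i _ => ?_
      rw [hM, Matrix.of_apply]
      have : ((-X) ^ (i : ℕ) * (n.choose i : R[X]) : R[X]) =
          C ((-1) ^ (i : ℕ) * (n.choose i : R)) * X ^ (i : ℕ) := by
        rw [neg_pow, map_mul, map_pow, map_neg, map_one, map_natCast]
        ring
      rw [this, iterate_derivative_C_mul, iterate_derivative_X_pow_eq_C_mul, Nat.sub_self, pow_zero,
        mul_one, Nat.descFactorial_self]
      simp only [map_mul, map_pow, map_neg, map_one, map_natCast]
      ring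
    · intro i j hij
      have hij' : (j : ℕ) < i := hij
      rw [hM, Matrix.of_apply]
      refine iterate_derivative_eq_zero ?_
      have : ((-X) ^ (j : ℕ) * (n.choose j : R[X]) : R[X]) =
          C ((-1) ^ (j : ℕ) * (n.choose j : R)) * X ^ (j : ℕ) := by
        rw [neg_pow, map_mul, map_pow, map_neg, map_one, map_natCast]
        ring
      rw [this]
      exact (natDegree_C_mul_X_pow_le _ _).trans_lt hij'
  refine ⟨Equiv.Perm.sign (Fin.revPerm : Equiv.Perm (Fin (n + 1))), ?_, ?_⟩
  · rcases Int.units_eq_one_or (Equiv.Perm.sign (Fin.revPerm : Equiv.Perm (Fin (n + 1)))) with h | h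
    · left; rw [h]; rfl
    · right; rw [h]; rfl
  · unfold wr
    rw [h1, Matrix.det_permute', h2]

end rules

lemma wr_pow_ne (p : ℕ) [Fact p.Prime] (n : ℕ) (hn : n < p) :
    wr n ((X - C X) ^ n : (ZMod p)[X][X]) ≠ 0 := by
  obtain ⟨c, hc, h⟩ := wr_pow (R := ZMod p) n
  have hp : p.Prime := Fact.out
  have hcast : ∀ k : ℕ, ¬ p ∣ k → (k : (ZMod p)[X]) ≠ 0 := by
    intro k hk h0
    have h1 : C (k : ZMod p) = 0 := by rw [map_natCast]; exact h0
    rw [C_eq_zero, ZMod.natCast_eq_zero_iff] at h1
    exact hk h1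
  rw [h]
  refine mul_ne_zero ?_ ?_
  · rcases hc with rfl | rfl
    · rw [Int.cast_one]; exact one_ne_zero
    · rw [Int.cast_neg, Int.cast_one]; exact neg_ne_zero.2 one_ne_zero
  · rw [Finset.prod_ne_zero_iff]
    intro i hi
    rw [Finset.mem_range, Nat.lt_succ_iff] at hi
    refine mul_ne_zero (mul_ne_zero (pow_ne_zero _ (neg_ne_zero.2 one_ne_zero)) (hcast _ ?_))
      (hcast _ ?_)
    · rw [hp.dvd_factorial]; omega
    · intro hd
      have h1 : n.choose i ∣ n.factorial := by
        rw [← Nat.choose_mul_factorial_mul_factorial hi, mul_assoc]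
        exact Nat.dvd_mul_right _ _
      have h2 := (hp.dvd_factorial).1 (hd.trans h1)
      omega

end Pool.Agent.Helper25.FX
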